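import Pool.Agent.P8H70.SR.Stm3
import Pool.Agent.P8H45.SR.Hb

set_option autoImplicit false

/-!
# SR/HB1: Lipschitz continuity of an infinite product (after `Pool/Agent/P8H45/SR/Hb.lean`)
-/

open Filter Topology Metric Set

namespace Pool.Agent.P8H4.SR

open Pool.Agent.P8H70.SR
open Pool.Agent.P8H45.SR.Hb (orb orb_norm orb_dist norm_ge)

theorem geo {β : ℝ} (h : 1 < β) : ∃ G : ℝ, 0 ≤ G ∧ ∀ N : ℕ,
    ∑ i ∈ Finset.range N, (2 : ℝ) ^ (-β * i) * 2 ^ i ≤ G := by
  obtain ⟨c, hc⟩ : ∃ c : ℝ, c = (2 : ℝ) ^ (1 - β) := ⟨_, rfl⟩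
  have hc0 : 0 < c := by rw [hc]; positivity
  have hc1 : c < 1 := by
    rw [hc]
    exact Real.rpow_lt_one_of_one_lt_of_neg (by norm_num) (by linarith)
  have h1c : 0 < 1 - c := by linarith
  refine ⟨1 / (1 - c), by positivity, fun N => ?_⟩
  have e : ∀ i : ℕ, (2 : ℝ) ^ (-β * i) * 2 ^ i = c ^ i := by
    intro i
    rw [hc, ← Real.rpow_natCast, ← Real.rpow_natCast, ← Real.rpow_mul (by norm_num),
      ← Real.rpow_add (by norm_num)]
    congr 1
    ring
  rw [Finset.sum_congr rfl fun i _ => e i, le_div_iff₀ h1c, geom_sum_mul_neg]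
  have : 0 < c ^ N := pow_pos hc0 N
  linarith

theorem hb1 : S_HB1 := by
  intro A β hβ
  obtain ⟨G, hG0, hG⟩ := geo hβ
  refine ⟨3 / 2 * (2 * |A| * G) * Real.exp (2 * |A| * G * 2), by positivity, ?_⟩
  intro P q σ a b hσ ha0 ha1 haA hq1 hq2 hPq hP1 hb hb1
  have hA : 0 ≤ A := by
    have h2 := (ha0 0).trans (haA 0)
    rwa [Nat.cast_zero, mul_zero, Real.rpow_zero, mul_one] at h2
  rw [abs_of_nonneg hA]
  intro z hz w hw
  have hz' : ‖z‖ < 1 := by simpa using hz
  have hw' : ‖w‖ < 1 := by simpa using hw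
  have mz : ∀ i, orb σ z i ∈ ball (0 : ℂ) 1 := fun i => by simpa using orb_norm hσ hz' i
  have mw : ∀ i, orb σ w i ∈ ball (0 : ℂ) 1 := fun i => by simpa using orb_norm hσ hw' i
  -- lower bounds
  have pz : ∀ i, 1 / 2 ≤ ‖P i (orb σ z i)‖ := fun i => norm_ge (hP1 i _ (mz i)) (hb1 i)
  have pw : ∀ i, 1 / 2 ≤ ‖P i (orb σ w i)‖ := fun i => norm_ge (hP1 i _ (mw i)) (hb1 i)
  have qz : ∀ i, 1 / 2 ≤ ‖q i (orb σ z i)‖ := fun i => norm_ge (hq1 i _ (mz i)) (ha1 i)
  have qw : ∀ i, 1 / 2 ≤ ‖q i (orb σ w i)‖ := fun i => norm_ge (hq1 i _ (mw i)) (ha1 i)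
  have ne : ∀ {x : ℂ}, 1 / 2 ≤ ‖x‖ → x ≠ 0 := by
    rintro x hx rfl
    rw [norm_zero] at hx
    norm_num at hx
  let R : ℕ → ℂ := fun i => P i (orb σ z i) / P i (orb σ w i)
  let D : ℕ → ℝ := fun i => 2 * (a i * ‖orb σ z i - orb σ w i‖)
  have step : ∀ i, ‖R i - 1‖ + 1 ≤ (‖R (i + 1) - 1‖ + 1) * (1 + D i) := by
    intro i
    have e1 : R i = R (i + 1) * (q i (orb σ w i) / q i (orb σ z i)) := by
      have e2 := hPq i _ (mz i)
      have e3 := hPq i _ (mw i)
      have n1 := ne (pw i)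
      have n2 := ne (qz i)
      have n3 := ne (qw i)
      simp only [R, orb]
      rw [← e2, ← e3]
      field_simp
    have e2 : ‖q i (orb σ w i) / q i (orb σ z i) - 1‖ ≤ D i := by
      have n2 := ne (qz i)
      rw [div_sub_one n2, norm_div, div_le_iff₀ (by linarith [qz i])]
      have e3 := hq2 i _ (mw i) _ (mz i)
      rw [norm_sub_rev (orb σ w i)] at e3
      have e4 : 0 ≤ a i * ‖orb σ z i - orb σ w i‖ := mul_nonneg (ha0 i) (norm_nonneg _)
      have e5 := qz i
      simp only [D]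
      nlinarith
    have e3 : R i - 1 = (R (i + 1) - 1) * (q i (orb σ w i) / q i (orb σ z i) - 1) +
        (R (i + 1) - 1) + (q i (orb σ w i) / q i (orb σ z i) - 1) := by
      rw [e1]
      ring
    have e4 : ‖R i - 1‖ ≤ ‖R (i + 1) - 1‖ * D i + ‖R (i + 1) - 1‖ + D i := by
      rw [e3]
      refine (norm_add₃_le).trans ?_
      rw [norm_mul]
      have := mul_le_mul_of_nonneg_left e2 (norm_nonneg (R (i + 1) - 1))
      linarith
    linarith
  have tot : ∀ N, ‖R 0 - 1‖ + 1 ≤ (‖R N - 1‖ + 1) * Real.exp (∑ i ∈ Finset.range N, D i) := by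
    intro N
    induction N with
    | zero => rw [Finset.range_zero, Finset.sum_empty, Real.exp_zero, mul_one]
    | succ N ih =>
      refine ih.trans ?_
      rw [Finset.sum_range_succ, add_comm (∑ i ∈ Finset.range N, D i), Real.exp_add, ← mul_assoc]
      refine mul_le_mul_of_nonneg_right ((step N).trans ?_) (Real.exp_pos _).le
      refine mul_le_mul_of_nonneg_left ?_ (by positivity)
      have := Real.add_one_le_exp (D N)
      linarith
  obtain ⟨d, hd⟩ : ∃ d : ℝ, d = ‖z - w‖ := ⟨_, rfl⟩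
  have hd0 : 0 ≤ d := by rw [hd]; exact norm_nonneg _
  have hd2 : d ≤ 2 := by
    rw [hd]
    have := norm_sub_le z w
    linarith
  have sumD : ∀ N, ∑ i ∈ Finset.range N, D i ≤ 2 * A * G * d := by
    intro N
    have e1 : ∑ i ∈ Finset.range N, D i ≤
        2 * A * d * ∑ i ∈ Finset.range N, (2 : ℝ) ^ (-β * i) * 2 ^ i := by
      rw [Finset.mul_sum]
      refine Finset.sum_le_sum fun i _ => ?_
      have e2 := (orb_dist hσ hz' hw' i).trans (min_le_right _ _)
      have e3 := haA i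
      have e4 : a i * ‖orb σ z i - orb σ w i‖ ≤
          A * (2 : ℝ) ^ (-β * i) * (2 ^ i * ‖z - w‖) :=
        mul_le_mul e3 e2 (norm_nonneg _) (by positivity)
      simp only [D]
      rw [hd]
      linarith
    refine e1.trans ?_
    have e5 := mul_le_mul_of_nonneg_left (hG N) (show 0 ≤ 2 * A * d by positivity)
    linarith
  have lim : ‖R 0 - 1‖ + 1 ≤ Real.exp (2 * A * G * d) := by
    have e1 : ∀ N, ‖R 0 - 1‖ + 1 ≤ (4 * b N + 1) * Real.exp (2 * A * G * d) := by
      intro N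
      refine (tot N).trans (mul_le_mul ?_ (Real.exp_le_exp.2 (sumD N)) (Real.exp_pos _).le ?_)
      · have n1 := ne (pw N)
        have e2 : ‖R N - 1‖ ≤ 4 * b N := by
          simp only [R]
          rw [div_sub_one n1, norm_div, div_le_iff₀ (by linarith [pw N])]
          have e3 := hP1 N _ (mz N)
          have e4 := hP1 N _ (mw N)
          have e5 : P N (orb σ z N) - P N (orb σ w N) =
            (P N (orb σ z N) - 1) - (P N (orb σ w N) - 1) := by ring
          have e6 := norm_sub_le (P N (orb σ z N) - 1) (P N (orb σ w N) - 1)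
          rw [← e5] at e6
          have e7 := pw N
          have e8 : 0 ≤ b N := (norm_nonneg _).trans e3
          nlinarith
        linarith
      · have e8 : 0 ≤ b N := (norm_nonneg _).trans (hP1 N _ (mz N))
        positivity
    have e2 : Tendsto (fun N => (4 * b N + 1) * Real.exp (2 * A * G * d)) atTop
        (𝓝 ((4 * 0 + 1) * Real.exp (2 * A * G * d))) :=
      ((hb.const_mul 4).add_const 1).mul_const _
    rw [mul_zero, zero_add, one_mul] at e2
    exact ge_of_tendsto' e2 e1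
  -- the end
  have n1 := ne (pw 0)
  have e1 : P 0 z - P 0 w = P 0 w * (R 0 - 1) := by
    have n2 : P 0 w ≠ 0 := n1
    simp only [R, orb]
    field_simp
  have e2 : ‖P 0 w‖ ≤ 3 / 2 := by
    have e3 := hP1 0 w hw
    have e4 := hb1 0
    have e5 : P 0 w = (P 0 w - 1) + 1 := by ring
    rw [e5]
    refine (norm_add_le _ _).trans ?_
    rw [norm_one]
    linarith
  obtain ⟨E, hE⟩ : ∃ E : ℝ, E = 2 * A * G * d := ⟨_, rfl⟩
  have hE0 : 0 ≤ E := by rw [hE]; positivity
  rw [← hE] at lim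
  have e3 : ‖R 0 - 1‖ ≤ E * Real.exp E := by
    have e4 := Real.add_one_le_exp (-E)
    have e5 : Real.exp E * Real.exp (-E) = 1 := by rw [← Real.exp_add, add_neg_cancel, Real.exp_zero]
    have e6 := mul_le_mul_of_nonneg_left e4 (Real.exp_pos E).le
    rw [e5] at e6
    linarith
  have e4 : Real.exp E ≤ Real.exp (2 * A * G * 2) := by
    refine Real.exp_le_exp.2 ?_
    rw [hE]
    exact mul_le_mul_of_nonneg_left hd2 (by positivity)
  rw [e1, norm_mul, ← hd]
  calc ‖P 0 w‖ * ‖R 0 - 1‖ ≤ 3 / 2 * (E * Real.exp (2 * A * G * 2)) := by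
        refine mul_le_mul e2 (e3.trans (mul_le_mul_of_nonneg_left e4 hE0)) (norm_nonneg _)
          (by norm_num)
    _ = 3 / 2 * (2 * A * G) * Real.exp (2 * A * G * 2) * d := by
        rw [hE]
        ring

end Pool.Agent.P8H4.SR
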