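import Pool.Agent.P8H70.SR.Stm3
import Pool.Agent.P8H57.SR.Hfl

set_option autoImplicit false

/-!
# SR/LG: local Hölder continuity of `E (s z ^ (2 ^ m))` implies Hölder continuity of `E`
-/

open Filter Topology Metric Set

namespace Pool.Agent.P8H4.SR

open Pool.Agent.P8H70.SR
open Pool.Agent.P8H57.SR (exp_dist2 near lift le_rpow)

theorem arg_le (u : ℂ) : |Complex.arg u| ≤ 7 * ‖u - 1‖ := by
  by_cases h : ‖u - 1‖ ≤ 1 / 2
  · have h1 : ‖Complex.log u‖ ≤ 3 / 2 * ‖u - 1‖ := by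
      have := Complex.norm_log_one_add_half_le_self (z := u - 1) h
      simpa using this
    have h2 : |Complex.arg u| ≤ ‖Complex.log u‖ := by
      rw [← Complex.log_im]
      exact Complex.abs_im_le_norm _
    have h3 := norm_nonneg (u - 1)
    linarith
  · have h1 := Complex.abs_arg_le_pi u
    have h2 := Real.pi_lt_d2
    push Not at h
    linarith

theorem root_dist {a b : ℝ} (ha : 1 / 2 ≤ a) (hb : 1 / 2 ≤ b) {n : ℕ} (hn : 0 < n) :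
    |a - b| ≤ 2 ^ n * |a ^ n - b ^ n| := by
  wlog hab : b ≤ a generalizing a b with H
  · have := H hb ha (not_le.1 hab).le
    rwa [abs_sub_comm a b, abs_sub_comm (a ^ n)]
  obtain ⟨k, rfl⟩ : ∃ k, n = k + 1 := ⟨n - 1, by omega⟩
  have hb0 : 0 ≤ b := by linarith
  have h1 : b ^ k ≤ a ^ k := pow_le_pow_left₀ hb0 hab k
  have h2 : (1 / 2 : ℝ) ^ k ≤ b ^ k := pow_le_pow_left₀ (by norm_num) hb k
  have h3 : (a - b) * b ^ k ≤ a ^ (k + 1) - b ^ (k + 1) := by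
    rw [pow_succ, pow_succ]
    have : a * b ^ k ≤ a * a ^ k := mul_le_mul_of_nonneg_left h1 (by linarith)
    linarith
  have h4 : (a - b) * (1 / 2 : ℝ) ^ k ≤ (a - b) * b ^ k :=
    mul_le_mul_of_nonneg_left h2 (by linarith)
  have h5 : (2 : ℝ) ^ k * (1 / 2 : ℝ) ^ k = 1 := by
    rw [← mul_pow]
    norm_num
  have h6 : 0 ≤ a ^ (k + 1) - b ^ (k + 1) := by
    have : b ^ (k + 1) ≤ a ^ (k + 1) := pow_le_pow_left₀ hb0 hab _
    linarith
  rw [abs_of_nonneg (by linarith : 0 ≤ a - b), abs_of_nonneg h6]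
  have h7 : (2 : ℝ) ^ k * ((a - b) * (1 / 2 : ℝ) ^ k) ≤
      2 ^ k * (a ^ (k + 1) - b ^ (k + 1)) :=
    mul_le_mul_of_nonneg_left (h4.trans h3) (by positivity)
  have h8 : (2 : ℝ) ^ k * ((a - b) * (1 / 2 : ℝ) ^ k) = a - b := by
    linear_combination (a - b) * h5
  rw [h8] at h7
  have h9 : 0 ≤ (2 : ℝ) ^ k * (a ^ (k + 1) - b ^ (k + 1)) := by positivity
  calc a - b ≤ 2 ^ k * (a ^ (k + 1) - b ^ (k + 1)) := h7
    _ ≤ 2 * (2 ^ k * (a ^ (k + 1) - b ^ (k + 1))) := by linarith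
    _ = 2 ^ (k + 1) * (a ^ (k + 1) - b ^ (k + 1)) := by ring

/-- the bound in the annulus -/
theorem annulus {W : Set ℂ} {θ₀ η : ℝ} (hη : 0 < η) (hη2 : η ≤ 1 / 2)
    (hnear : ∀ r θ : ℝ, 1 - η < r → r < 1 → |θ - θ₀| < η →
      (r : ℂ) * Complex.exp (θ * Complex.I) ∈ ball (0 : ℂ) 1 ∩ W)
    {n : ℕ} (hn : 0 < n) (hnη : 3 * Real.pi / n < η)
    {E : ℂ → ℂ} {s : ℂ} {γ H : ℝ} (hs : ‖s‖ = 1) (h0 : 0 < γ) (hH0 : 0 ≤ H)
    (hH : ∀ z ∈ ball (0 : ℂ) 1 ∩ W, ∀ w ∈ ball (0 : ℂ) 1 ∩ W,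
      ‖E (s * z ^ n) - E (s * w ^ n)‖ ≤ H * ‖z - w‖ ^ γ)
    {w w' : ℂ} (hw1 : (1 - η) ^ n < ‖w‖) (hw2 : ‖w‖ < 1)
    (hw1' : (1 - η) ^ n < ‖w'‖) (hw2' : ‖w'‖ < 1) :
    ‖E w - E w'‖ ≤ H * (8 * 2 ^ n) ^ γ * ‖w - w'‖ ^ γ := by
  have hn' : (0 : ℝ) < n := by exact_mod_cast hn
  have hn1 : (1 : ℝ) ≤ n := by exact_mod_cast hn
  have hpi := Real.pi_pos
  have root : ∀ v : ℂ, (1 - η) ^ n < ‖v‖ → ‖v‖ < 1 → 1 - η < ‖v‖ ^ (1 / n : ℝ) ∧
      ‖v‖ ^ (1 / n : ℝ) < 1 ∧ (‖v‖ ^ (1 / n : ℝ)) ^ n = ‖v‖ := by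
    intro v hv1 hv2
    have hρn : (‖v‖ ^ (1 / n : ℝ)) ^ n = ‖v‖ := by
      rw [← Real.rpow_natCast, ← Real.rpow_mul (norm_nonneg _), one_div,
        inv_mul_cancel₀ hn'.ne', Real.rpow_one]
    have hρ0 : 0 ≤ ‖v‖ ^ (1 / n : ℝ) := Real.rpow_nonneg (norm_nonneg _) _
    refine ⟨?_, ?_, hρn⟩
    · by_contra hcon
      have := pow_le_pow_left₀ hρ0 (not_lt.1 hcon) n
      rw [hρn] at this
      linarith
    · by_contra hcon
      have := one_le_pow₀ (not_lt.1 hcon) (n := n)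
      rw [hρn] at this
      linarith
  obtain ⟨θ, hθ, hlift⟩ := lift (w := w) hs θ₀ hn
  obtain ⟨r1, r2, r3⟩ := root w hw1 hw2
  obtain ⟨r1', r2', r3'⟩ := root w' hw1' hw2'
  set ρ : ℝ := ‖w‖ ^ (1 / n : ℝ) with hρ
  set ρ' : ℝ := ‖w'‖ ^ (1 / n : ℝ) with hρ'
  have q0 : 0 < (1 - η) ^ n := pow_pos (by linarith) n
  have w0 : w ≠ 0 := by
    rintro rfl
    rw [norm_zero] at hw1
    linarith
  have wn0 : 0 < ‖w‖ := norm_pos_iff.2 w0
  have w0' : w' ≠ 0 := by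
    rintro rfl
    rw [norm_zero] at hw1'
    linarith
  have wn0' : 0 < ‖w'‖ := norm_pos_iff.2 w0'
  set β : ℝ := Complex.arg (w' / w) / n with hβ
  have hβn : n * β = Complex.arg (w' / w) := by
    rw [hβ]
    field_simp
  have hβ1 : |β| ≤ Real.pi / n := by
    rw [hβ, abs_div, abs_of_pos hn']
    exact div_le_div_of_nonneg_right (Complex.abs_arg_le_pi _) hn'.le
  have hsum : 2 * Real.pi / n + Real.pi / n < η := by
    rw [← add_div]
    convert hnη using 2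
    ring
  have hpn : 0 < Real.pi / n := by positivity
  have m1 := hnear ρ θ r1 r2 (by linarith)
  have m2 := hnear ρ' (θ + β) r1' r2' (by
    rw [abs_le] at hθ hβ1
    rw [abs_lt]
    constructor <;> linarith [hθ.1, hθ.2, hβ1.1, hβ1.2])
  have e1 : s * ((ρ' : ℂ) * Complex.exp (((θ + β : ℝ) : ℂ) * Complex.I)) ^ n = w' := by
    have f1 : s * Complex.exp ((θ : ℂ) * Complex.I) ^ n = w / (‖w‖ : ℂ) := by
      rw [eq_div_iff (by exact_mod_cast wn0.ne')]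
      conv_rhs => rw [← hlift]
      rw [mul_pow, ← Complex.ofReal_pow, r3]
      ring
    have f2 : Complex.exp ((β : ℂ) * Complex.I) ^ n = (w' / w) / (‖w' / w‖ : ℂ) := by
      rw [← Complex.exp_nat_mul, ← mul_assoc]
      have : (n : ℂ) * (β : ℂ) = (Complex.arg (w' / w) : ℂ) := by
        rw [← hβn]
        push_cast
        rfl
      rw [this, eq_div_iff]
      · rw [mul_comm]
        exact Complex.norm_mul_exp_arg_mul_I _
      · have : ‖w' / w‖ ≠ 0 := by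
          rw [norm_ne_zero_iff]
          exact div_ne_zero w0' w0
        exact_mod_cast this
    have f3 : Complex.exp (((θ + β : ℝ) : ℂ) * Complex.I) =
        Complex.exp ((θ : ℂ) * Complex.I) * Complex.exp ((β : ℂ) * Complex.I) := by
      rw [← Complex.exp_add]
      congr 1
      push_cast
      ring
    rw [f3, mul_pow, mul_pow, ← Complex.ofReal_pow, r3', f2]
    have f4 : s * ((‖w'‖ : ℂ) * (Complex.exp ((θ : ℂ) * Complex.I) ^ n *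
        ((w' / w) / (‖w' / w‖ : ℂ)))) =
        (‖w'‖ : ℂ) * ((s * Complex.exp ((θ : ℂ) * Complex.I) ^ n) *
        ((w' / w) / (‖w' / w‖ : ℂ))) := by ring
    rw [f4, f1, norm_div]
    push_cast
    have g1 : (‖w‖ : ℂ) ≠ 0 := by exact_mod_cast wn0.ne'
    have g2 : (‖w'‖ : ℂ) ≠ 0 := by exact_mod_cast wn0'.ne'
    field_simp
  have e2 := hH _ m1 _ m2
  rw [hlift, e1] at e2
  refine e2.trans ?_
  rw [mul_assoc]
  refine mul_le_mul_of_nonneg_left ?_ hH0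
  rw [← Real.mul_rpow (by positivity) (norm_nonneg _)]
  refine Real.rpow_le_rpow (norm_nonneg _) ?_ h0.le
  have e3 : (ρ : ℂ) * Complex.exp ((θ : ℂ) * Complex.I) -
      (ρ' : ℂ) * Complex.exp (((θ + β : ℝ) : ℂ) * Complex.I) =
      ((ρ - ρ' : ℝ) : ℂ) * Complex.exp ((θ : ℂ) * Complex.I) +
      ρ' * (Complex.exp ((θ : ℂ) * Complex.I) - Complex.exp (((θ + β : ℝ) : ℂ) * Complex.I)) := by
    push_cast
    ring
  have e4 : |ρ - ρ'| ≤ 2 ^ n * ‖w - w'‖ := by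
    have f1 := root_dist (a := ρ) (b := ρ') (by linarith) (by linarith) hn
    rw [r3, r3'] at f1
    exact f1.trans (mul_le_mul_of_nonneg_left (abs_norm_sub_norm_le w w') (by positivity))
  have e5 : |θ - (θ + β)| ≤ 7 * 2 ^ n * ‖w - w'‖ := by
    have f1 : |θ - (θ + β)| = |β| := by rw [sub_add_cancel_left, abs_neg]
    rw [f1, hβ, abs_div, abs_of_pos hn']
    have f2 : |Complex.arg (w' / w)| / n ≤ |Complex.arg (w' / w)| := by
      rw [div_le_iff₀ hn']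
      have := abs_nonneg (Complex.arg (w' / w))
      nlinarith
    have f3 := arg_le (w' / w)
    have f4 : ‖w' / w - 1‖ ≤ 2 ^ n * ‖w - w'‖ := by
      rw [div_sub_one w0, norm_div, div_le_iff₀ wn0, norm_sub_rev w' w]
      have g1 : (1 / 2 : ℝ) ^ n ≤ ‖w‖ :=
        (pow_le_pow_left₀ (by norm_num) (by linarith) n).trans hw1.le
      have g2 : (2 : ℝ) ^ n * (1 / 2 : ℝ) ^ n = 1 := by
        rw [← mul_pow]
        norm_num
      have g3 : (1 : ℝ) ≤ 2 ^ n * ‖w‖ := by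
        rw [← g2]
        exact mul_le_mul_of_nonneg_left g1 (by positivity)
      have g4 := mul_le_mul_of_nonneg_left g3 (norm_nonneg (w - w'))
      linarith
    linarith
  have e6 := exp_dist2 θ (θ + β)
  have hρ0 : 0 ≤ ρ' := by linarith
  calc ‖(ρ : ℂ) * Complex.exp ((θ : ℂ) * Complex.I) -
      (ρ' : ℂ) * Complex.exp (((θ + β : ℝ) : ℂ) * Complex.I)‖
      ≤ |ρ - ρ'| + ρ' * ‖Complex.exp ((θ : ℂ) * Complex.I) -
        Complex.exp (((θ + β : ℝ) : ℂ) * Complex.I)‖ := by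
        rw [e3]
        refine (norm_add_le _ _).trans ?_
        rw [norm_mul, norm_mul, Complex.norm_exp_ofReal_mul_I, mul_one, Complex.norm_real,
          Complex.norm_real, Real.norm_eq_abs, Real.norm_of_nonneg hρ0]
    _ ≤ 2 ^ n * ‖w - w'‖ + 1 * (7 * 2 ^ n * ‖w - w'‖) := by
        refine add_le_add e4 (mul_le_mul r2'.le (e6.trans e5) (norm_nonneg _) zero_le_one)
    _ = 8 * 2 ^ n * ‖w - w'‖ := by ring

/-- gluing -/
theorem glue {E : ℂ → ℂ} {γ r₁ r₂ K₁ K₂ : ℝ} (h0 : 0 < γ) (h1 : γ < 1) (hr1 : 0 < r₁)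
    (hr : r₁ < r₂) (hr2 : r₂ < 1) (hK1 : 0 ≤ K₁) (hK2 : 0 ≤ K₂)
    (H1 : ∀ w : ℂ, ‖w‖ ≤ r₂ → ∀ w' : ℂ, ‖w'‖ ≤ r₂ → ‖E w - E w'‖ ≤ K₁ * ‖w - w'‖ ^ γ)
    (H2 : ∀ w : ℂ, r₁ < ‖w‖ → ‖w‖ < 1 → ∀ w' : ℂ, r₁ < ‖w'‖ → ‖w'‖ < 1 →
      ‖E w - E w'‖ ≤ K₂ * ‖w - w'‖ ^ γ)
    {w w' : ℂ} (hw : ‖w‖ < 1) (hw' : ‖w'‖ < 1) :
    ‖E w - E w'‖ ≤ (2 * K₁ + K₂) * ‖w - w'‖ ^ γ := by
  wlog hab : ‖w‖ ≤ ‖w'‖ generalizing w w' with H
  · have := H hw' hw (not_le.1 hab).le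
    rwa [norm_sub_rev (E w), norm_sub_rev w]
  have hd : 0 ≤ ‖w - w'‖ ^ γ := Real.rpow_nonneg (norm_nonneg _) _
  have hd1 : 0 ≤ K₁ * ‖w - w'‖ ^ γ := mul_nonneg hK1 hd
  have hd2 : 0 ≤ K₂ * ‖w - w'‖ ^ γ := mul_nonneg hK2 hd
  rcases le_or_gt ‖w'‖ r₂ with h2 | h2
  · have := H1 w (hab.trans h2) w' h2
    linarith
  rcases lt_or_ge r₁ ‖w‖ with h3 | h3
  · have := H2 w h3 hw w' (by linarith) hw'
    linarith
  have wn : 0 < ‖w'‖ := by linarith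
  have wn' : (‖w'‖ : ℂ) ≠ 0 := by exact_mod_cast wn.ne'
  set v : ℂ := ((r₂ / ‖w'‖ : ℝ) : ℂ) * w' with hv
  have hq0 : 0 ≤ r₂ / ‖w'‖ := div_nonneg (by linarith) wn.le
  have v1 : ‖v‖ = r₂ := by
    rw [hv, norm_mul, Complex.norm_real, Real.norm_of_nonneg hq0]
    field_simp
  have v2 : ‖v - w'‖ = ‖w'‖ - r₂ := by
    have : v - w' = (((r₂ / ‖w'‖ - 1 : ℝ)) : ℂ) * w' := by
      rw [hv]
      push_cast
      ring
    rw [this, norm_mul, Complex.norm_real, Real.norm_eq_abs, abs_of_nonpos, neg_sub]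
    · field_simp
    · rw [sub_nonpos, div_le_one wn]
      exact h2.le
  have v3 : ‖v - w'‖ ≤ ‖w - w'‖ := by
    rw [v2]
    have := norm_sub_norm_le w' w
    rw [norm_sub_rev] at this
    linarith
  have v4 : ‖w - v‖ ≤ 2 * ‖w - w'‖ := by
    have e : w - v = (w - w') - (v - w') := by ring
    rw [e]
    have := norm_sub_le (w - w') (v - w')
    linarith
  have a1 := H1 w (by linarith) v v1.le
  have a2 := H2 v (by linarith) (by linarith) w' (by linarith) hw'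
  have a3 : ‖v - w'‖ ^ γ ≤ ‖w - w'‖ ^ γ := Real.rpow_le_rpow (norm_nonneg _) v3 h0.le
  have a4 : ‖w - v‖ ^ γ ≤ 2 * ‖w - w'‖ ^ γ := by
    refine (Real.rpow_le_rpow (norm_nonneg _) v4 h0.le).trans ?_
    rw [Real.mul_rpow (by norm_num) (norm_nonneg _)]
    refine mul_le_mul_of_nonneg_right ?_ hd
    calc (2 : ℝ) ^ γ ≤ 2 ^ (1 : ℝ) := Real.rpow_le_rpow_of_exponent_le (by norm_num) h1.le
      _ = 2 := Real.rpow_one 2
  have a5 := mul_le_mul_of_nonneg_left a4 hK1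
  have a6 := mul_le_mul_of_nonneg_left a3 hK2
  have e : E w - E w' = (E w - E v) + (E v - E w') := by ring
  rw [e]
  refine (norm_add_le _ _).trans ?_
  linarith

/-- **SR/LG.** -/
theorem lg : S_LG := by
  intro W hW hne
  obtain ⟨z₀, hz₀W, hz₀⟩ := hne
  have hz₀' : z₀ = Complex.exp ((Complex.arg z₀ : ℝ) * Complex.I) := by
    have := Complex.norm_mul_exp_arg_mul_I z₀
    rw [mem_sphere_zero_iff_norm.1 hz₀] at this
    simpa using this.symm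
  obtain ⟨η, hη, hη2, hnear⟩ := near hW (Complex.arg z₀) (hz₀' ▸ hz₀W)
  have hpi := Real.pi_pos
  obtain ⟨m₀, hm₀⟩ := pow_unbounded_of_one_lt (3 * Real.pi / η) (one_lt_two (α := ℝ))
  refine ⟨m₀, fun m hm E s γ hs h0 h1 hE hHO => ?_⟩
  obtain ⟨H, hH⟩ := hHO
  obtain ⟨n, hn⟩ : ∃ n : ℕ, n = 2 ^ m := ⟨_, rfl⟩
  rw [← hn] at hH
  have hn0 : 0 < n := by rw [hn]; positivity
  have hn' : (0 : ℝ) < n := by exact_mod_cast hn0
  have hnη : 3 * Real.pi / n < η := by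
    rw [div_lt_iff₀ hn']
    rw [div_lt_iff₀ hη] at hm₀
    have e1 : (2 : ℝ) ^ m₀ ≤ n := by
      rw [hn]
      push_cast
      exact pow_le_pow_right₀ (by norm_num) hm
    nlinarith
  have hH' : ∀ z ∈ ball (0 : ℂ) 1 ∩ W, ∀ w ∈ ball (0 : ℂ) 1 ∩ W,
      ‖E (s * z ^ n) - E (s * w ^ n)‖ ≤ |H| * ‖z - w‖ ^ γ := fun z hz w hw =>
    (hH z hz w hw).trans (mul_le_mul_of_nonneg_right (le_abs_self H)
      (Real.rpow_nonneg (norm_nonneg _) _))
  have q0 : 0 < (1 - η) ^ n := pow_pos (by linarith) n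
  have q1 : (1 - η) ^ n < 1 := pow_lt_one₀ (by linarith) (by linarith) hn0.ne'
  obtain ⟨r₂, hr₂⟩ : ∃ r₂ : ℝ, r₂ = ((1 - η) ^ n + 1) / 2 := ⟨_, rfl⟩
  -- Lipschitz inside
  have hsub : closedBall (0 : ℂ) r₂ ⊆ ball 0 1 := closedBall_subset_ball (by linarith)
  have hd : ContinuousOn (deriv E) (closedBall 0 r₂) :=
    ((hE.deriv isOpen_ball).continuousOn).mono hsub
  obtain ⟨M, hM⟩ := (isCompact_closedBall (0 : ℂ) r₂).exists_bound_of_continuousOn hd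
  have hM0 : 0 ≤ M := (norm_nonneg _).trans (hM 0 (mem_closedBall_self (by linarith)))
  have L : ∀ w : ℂ, ‖w‖ ≤ r₂ → ∀ w' : ℂ, ‖w'‖ ≤ r₂ →
      ‖E w - E w'‖ ≤ (M * 2) * ‖w - w'‖ ^ γ := by
    intro w hw w' hw'
    have e1 := Convex.norm_image_sub_le_of_norm_deriv_le (𝕜 := ℂ) (f := E) (C := M)
      (s := closedBall (0 : ℂ) r₂) (x := w') (y := w)
      (fun x hx => (hE x (hsub hx)).differentiableAt (isOpen_ball.mem_nhds (hsub hx)))
      hM (convex_closedBall _ _) (by simpa using hw') (by simpa using hw)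
    refine e1.trans ?_
    rw [mul_assoc]
    refine mul_le_mul_of_nonneg_left (le_rpow (norm_nonneg _) ?_ h0 h1) hM0
    have := norm_sub_le w w'
    linarith
  refine ⟨2 * (M * 2) + |H| * (8 * 2 ^ n) ^ γ, fun z hz w hw => ?_⟩
  rw [mem_ball_zero_iff] at hz hw
  refine glue h0 h1 q0 (show (1 - η) ^ n < r₂ by linarith) (by linarith) (by positivity)
    (by positivity) L ?_ hz hw
  intro w hw1 hw2 w' hw1' hw2'
  exact annulus hη hη2 hnear hn0 hnη hs h0 (abs_nonneg H) hH' hw1 hw2 hw1' hw2'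

end Pool.Agent.P8H4.SR
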